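import Pool.Agent.H431.KU.Roots

/-!
# Adjoining all roots
-/

set_option autoImplicit false

namespace Pool.Agent.H431.KU

open NumberField IsDedekindDomain Height Pool.Agent.Q290.NF IntermediateField
open Pool.Agent.H431.OC Pool.Agent.H431.MT Pool.Agent.H431.PN

/-- **adjoining the roots of order `r_j` of the elements `b_j`** -/
theorem adj_all {N : ℕ} (hN : N ≠ 0) {s : ℕ} : ∀ (t : ℕ) (r : Fin s → ℕ), ∑ j, r j = t →
    (∀ j, r j ≠ 0) → (∀ j (p : ℕ), p.Prime → p ∣ r j → p ∣ N) →
    ∃ c : ℝ, 0 ≤ c ∧ ∀ (M : Type) [Field M] [NumberField M] (σ : M →+* ℂ) (x : M)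
      (b : Fin s → M), x ≠ 0 → (∀ i, b i ≠ 0) → Fam N x b → ∀ z : Fin s → ℂ,
      (∀ i, z i ^ r i = σ (b i)) →
    ∃ (E : Type) (_ : Field E) (_ : NumberField E) (_ : Algebra M E) (τ : E →+* ℂ)
      (y : Fin s → E), τ.comp (algebraMap M E) = σ ∧
      (∀ i, y i ^ r i = algebraMap M E (b i)) ∧ (∀ i, τ (y i) = z i) ∧
      Module.finrank M E ≤ ∏ i, r i ∧
      DD E + sm (w3 (algebraMap M E x)) ≤ Module.finrank M E * (DD M + sm (gw x b r) +
          Module.finrank ℚ M * c) := by
  classical
  intro t
  induction t using Nat.strong_induction_on with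
  | _ t ih =>
    intro r hrt hr hrN
    by_cases hall : ∀ j, r j = 1
    · refine ⟨0, le_rfl, fun M _ _ σ x b hx hb hF z hz => ?_⟩
      refine ⟨M, inferInstance, inferInstance, Algebra.id M, σ, b, ?_, ?_, ?_, ?_, ?_⟩
      · ext y
        rfl
      · intro i
        rw [hall i, pow_one]
        rfl
      · intro i
        rw [← hz i, hall i, pow_one]
      · rw [Module.finrank_self]
        exact Nat.one_le_iff_ne_zero.2 (Finset.prod_ne_zero_iff.2 fun i _ => hr i)
      · rw [Module.finrank_self]
        have h1 : sm (w3 (algebraMap M M x)) ≤ sm (gw x b r) := by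
          refine sm_mono (supp_w3 _) (gw_supp hb) fun v => ?_
          show w3 x v ≤ gw x b r v
          by_cases h : w3 x v = 0
          · rw [h]
            exact gw_nonneg hr v
          · rw [gw_one h]
            exact w3_le_one v hx
        push_cast
        linarith
    · rw [not_forall] at hall
      obtain ⟨j, hj⟩ := hall
      obtain ⟨p, hp⟩ : ∃ p, p = (r j).minFac := ⟨_, rfl⟩
      have hpp : p.Prime := by
        rw [hp]
        exact Nat.minFac_prime hj
      obtain ⟨r', hr'⟩ : p ∣ r j := by
        rw [hp]
        exact Nat.minFac_dvd _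
      have hr'0 : r' ≠ 0 := by
        rintro rfl
        exact hr j (by rw [hr', mul_zero])
      have hlt : r' < r j := by
        rw [hr']
        have h1 := hpp.one_lt
        have h2 := Nat.pos_of_ne_zero hr'0
        nlinarith
      obtain ⟨r2, hr2⟩ : ∃ r2, r2 = Function.update r j r' := ⟨_, rfl⟩
      have hrj2 : r2 j = r' := by rw [hr2, Function.update_self]
      have hri : ∀ i, i ≠ j → r2 i = r i := fun i hi => by rw [hr2, Function.update_of_ne hi]
      have hr20 : ∀ i, r2 i ≠ 0 := by
        intro i
        by_cases hi : i = j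
        · rw [hi, hrj2]
          exact hr'0
        · rw [hri i hi]
          exact hr i
      have hsum : ∑ i, r2 i < t := by
        rw [← hrt]
        refine Finset.sum_lt_sum (fun i _ => ?_) ⟨j, Finset.mem_univ j, by rw [hrj2]; exact hlt⟩
        by_cases hi : i = j
        · rw [hi, hrj2]
          exact hlt.le
        · rw [hri i hi]
      have hrN2 : ∀ i (q : ℕ), q.Prime → q ∣ r2 i → q ∣ N := by
        intro i q hq hqi
        by_cases hi : i = j
        · rw [hi, hrj2] at hqi
          exact hrN j q hq (hqi.trans ⟨p, by rw [hr', mul_comm]⟩)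
        · rw [hri i hi] at hqi
          exact hrN i q hq hqi
      have hpN : p ∣ N := hrN j p hpp ⟨r', hr'⟩
      obtain ⟨c, hc, H⟩ := ih _ hsum r2 rfl hr20 hrN2
      obtain ⟨c1, hc1⟩ : ∃ c1 : ℝ, c1 = (s + 1 + 1) * Real.log N +
        Real.log (p.factorial : ℕ) := ⟨_, rfl⟩
      have hc10 : 0 ≤ c1 := by
        rw [hc1]
        have h1 : 0 ≤ Real.log N := Real.log_natCast_nonneg N
        have h2 : 0 ≤ Real.log (p.factorial : ℕ) := Real.log_natCast_nonneg _
        positivity
      refine ⟨c1 + c, by linarith, fun M _ _ σ x b hx hb hF z hz => ?_⟩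
      obtain ⟨E, g1, g2, g3, τ, y, hτ, hy, hτy, hE, hFE, hD⟩ := step hpp hN hpN r hr j r' hr'
        M σ x b hb hF (z j ^ r') (by rw [← pow_mul, mul_comm, ← hr']; exact hz j)
      rw [← hr2, ← hc1] at hD
      obtain ⟨b', hb'⟩ : ∃ b', b' = Function.update (fun i => algebraMap M E (b i)) j y :=
        ⟨_, rfl⟩
      rw [← hb'] at hFE hD
      have hbj : b' j = y := by rw [hb', Function.update_self]
      have hbi : ∀ i, i ≠ j → b' i = algebraMap M E (b i) := fun i hi => by
        rw [hb', Function.update_of_ne hi]
      have hy0 : y ≠ 0 := by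
        rintro rfl
        rw [zero_pow hpp.ne_zero] at hy
        exact hb j ((map_eq_zero _).1 hy.symm)
      have hb0 : ∀ i, b' i ≠ 0 := by
        intro i
        by_cases hi : i = j
        · rw [hi, hbj]
          exact hy0
        · rw [hbi i hi]
          exact (map_ne_zero _).2 (hb i)
      have hτ' : ∀ u : M, τ (algebraMap M E u) = σ u := fun u => by
        rw [← hτ]
        rfl
      obtain ⟨F, f1, f2, f3, υ, y2, hυ, hy2, hυy, hF2, hDF⟩ := H E τ (algebraMap M E x) b'
        ((map_ne_zero _).2 hx) hb0 hFE z (by
          intro i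
          by_cases hi : i = j
          · rw [hi, hrj2, hbj, hτy]
          · rw [hri i hi, hbi i hi, hτ']
            exact hz i)
      let _ : Algebra M F := ((algebraMap E F).comp (algebraMap M E)).toAlgebra
      have hst : IsScalarTower M E F := IsScalarTower.of_algebraMap_eq fun _ => rfl
      refine ⟨F, f1, f2, inferInstance, υ, y2, ?_, ?_, hυy, ?_, ?_⟩
      · have : (algebraMap M F) = (algebraMap E F).comp (algebraMap M E) := rfl
        rw [this, ← RingHom.comp_assoc, hυ, hτ]
      · intro i
        by_cases hi : i = j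
        · have h1 := hy2 j
          rw [hrj2, hbj] at h1
          rw [hi, hr', mul_comm, pow_mul, h1, ← map_pow, hy]
          rfl
        · have h1 := hy2 i
          rw [hri i hi, hbi i hi] at h1
          rw [h1]
          rfl
      · rw [← Module.finrank_mul_finrank M E F]
        have h1 : ∏ i, r i = p * ∏ i, r2 i := by
          rw [← Finset.mul_prod_erase Finset.univ r (Finset.mem_univ j),
            ← Finset.mul_prod_erase Finset.univ r2 (Finset.mem_univ j), hrj2, hr', mul_assoc]
          congr 2
          refine Finset.prod_congr rfl fun i hi => ?_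
          rw [hri i (Finset.ne_of_mem_erase hi)]
        rw [h1]
        exact Nat.mul_le_mul hE hF2
      · have e1 : (Module.finrank M F : ℝ) = Module.finrank M E * Module.finrank E F := by
          exact_mod_cast (Module.finrank_mul_finrank M E F).symm
        have e2 : (Module.finrank ℚ E : ℝ) = Module.finrank ℚ M * Module.finrank M E := by
          exact_mod_cast (Module.finrank_mul_finrank ℚ M E).symm
        rw [← IsScalarTower.algebraMap_apply, e2] at hDF
        rw [e1]
        have hn : (0 : ℝ) ≤ Module.finrank E F := Nat.cast_nonneg _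
        have h3 := mul_le_mul_of_nonneg_left hD hn
        linarith

end Pool.Agent.H431.KU
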