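import Pool.Agent.H431.KU.Main
import Pool.Agent.H431.LF.Line

/-!
# Points of bounded degree on diagonal complete intersections, with divisors
-/

set_option autoImplicit false

namespace Pool.Agent.H431.KU

open NumberField IsDedekindDomain Height Pool.Agent.Q290.NF IntermediateField
open Pool.Agent.H431.OC Pool.Agent.H431.MT Pool.Agent.H431.PN

theorem main_ciD (K : Type) [Field K] [NumberField K] (n m s d : ℕ) (hn : 1 ≤ n) (hm : m ≠ 0)
    (A : Fin (n + 2 + s) → Fin (n + 1) → K) (γ : Fin (n + 1) → K) (hγ : ∀ i, γ i ≠ 0)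
    (hA1 : ∀ i : Fin (n + 1), A (Fin.castAdd s i.castSucc) = Pi.single i (γ i))
    (hA2 : A (Fin.castAdd s (Fin.last (n + 1))) = fun _ => 1)
    (hA3 : ∀ i : Fin s, A (Fin.natAdd (n + 2) i) ≠ 0)
    (G : MvPolynomial (Fin (n + 2 + s)) K) (hdeg : G.IsHomogeneous d)
    (L0 : Type) [Field L0] [NumberField L0] [Algebra K L0] (y0 : Fin (n + 2 + s) → L0)
    (x0 : Fin (n + 1) → L0) (h0 : ∀ j, y0 j ^ m = ∑ k, algebraMap K L0 (A j k) * x0 k)
    (hG : MvPolynomial.aeval y0 G ≠ 0) (c : ℝ)
    (hc : (m : ℝ) + n * (s * (m - 1)) < c * n) :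
    ∃ N : ℕ, N ≠ 0 ∧ ∀ T : ℝ, ∃ (L : Type) (_ : Field L) (_ : NumberField L) (_ : Algebra K L)
      (y : Fin (n + 2 + s) → L) (x : Fin (n + 1) → L),
      adjoin K (Set.range y) = ⊤ ∧ y (Fin.castAdd s (Fin.last (n + 1))) = 1 ∧
      Module.finrank K L ≤ (2 * max 1 (d / m + s)) ^ (n - 1) * m ^ (n + 1 + s) ∧
      (∀ j, y j ^ m = ∑ k, algebraMap K L (A j k) * x k) ∧ (∀ j, y j ≠ 0) ∧
      MvPolynomial.aeval y G ≠ 0 ∧ ∀ R : Finset (HeightOneSpectrum (𝓞 L)),
      (∀ v ∈ R, ord v (N : L) = 0 ∧ ∃ (j : Fin (n + 2)) (k : Fin (n + 2 + s)),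
        v.valuation L (y (Fin.castAdd s j)) < v.valuation L (y k)) →
      DD L + ∑ v ∈ R, ell v + Module.finrank K L * (T - DD K) < c * logHeight y := by
  classical
  have hl : 0 < Real.log 2 := Real.log_pos (by norm_num)
  have hmpos : 0 < m := Nat.pos_of_ne_zero hm
  have hmR0 : (0 : ℝ) < m := by exact_mod_cast hmpos
  have hmR1 : (1 : ℝ) ≤ m := by exact_mod_cast hmpos
  have hnR0 : (0 : ℝ) < n := by exact_mod_cast hn
  have hsR0 : (0 : ℝ) ≤ s := Nat.cast_nonneg _
  have hc0 : 0 < c := by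
    by_contra h
    have h1 := mul_nonpos_of_nonpos_of_nonneg (not_lt.1 h) hnR0.le
    have h2 : 0 ≤ (n : ℝ) * (s * (m - 1)) :=
      mul_nonneg hnR0.le (mul_nonneg hsR0 (by linarith))
    linarith
  obtain ⟨j1, hj1⟩ : ∃ j1 : Fin (n + 2 + s), j1 = Fin.castAdd s (Fin.last (n + 1)) := ⟨_, rfl⟩
  rw [← hj1] at hA2 ⊢
  have hι : ∀ i : Fin (n + 1), (Fin.castAdd s i.castSucc : Fin (n + 2 + s)) ≠ j1 := by
    intro i h
    rw [hj1] at h
    have h1 := Fin.castAdd_injective _ _ h
    exact absurd h1 (Fin.castSucc_lt_last i).ne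
  have hν : ∀ i : Fin s, (Fin.natAdd (n + 2) i : Fin (n + 2 + s)) ≠ j1 := by
    intro i h
    rw [hj1] at h
    have h1 := congrArg Fin.val h
    rw [Fin.val_natAdd, Fin.val_castAdd, Fin.val_last] at h1
    omega
  have hcases : ∀ j : Fin (n + 2 + s), (∃ i : Fin (n + 1), j = Fin.castAdd s i.castSucc) ∨
      j = j1 ∨ ∃ i : Fin s, j = Fin.natAdd (n + 2) i := by
    intro j
    refine Fin.addCases (fun j => ?_) (fun i => Or.inr (Or.inr ⟨i, rfl⟩)) j
    refine Fin.lastCases ?_ (fun i => Or.inl ⟨i, rfl⟩) j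
    exact Or.inr (Or.inl hj1.symm)
  -- the polynomials
  obtain ⟨ψ⟩ : Nonempty (L0 →+* ℂ) := inferInstance
  obtain ⟨φ, hφ⟩ : ∃ φ : K →+* ℂ, φ = ψ.comp (algebraMap K L0) := ⟨_, rfl⟩
  obtain ⟨e, he, F, hF0, hFh, hF⟩ := cov_poly (d := d) hmpos (MvPolynomial.map φ G) (hdeg.map φ)
    (fun j k => φ (A j k)) (fun k => ψ (x0 k)) (fun j => ψ (y0 j)) (by
      intro j
      rw [← map_pow, h0 j, map_sum]
      refine Finset.sum_congr rfl fun k _ => ?_
      rw [map_mul, hφ]
      rfl) (by
      rw [MvPolynomial.eval_map]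
      intro h
      apply hG
      apply ψ.injective
      rw [map_zero, MvPolynomial.aeval_def, MvPolynomial.hom_eval₂, ← h, hφ])
  obtain ⟨F', hF'⟩ : ∃ F', F' = F * ∏ i : Fin s, lf (fun k => φ (A (Fin.natAdd (n + 2) i) k)) :=
    ⟨_, rfl⟩
  have hF'0 : F' ≠ 0 := by
    rw [hF']
    refine mul_ne_zero hF0 (Finset.prod_ne_zero_iff.2 fun i _ => lf_ne ?_)
    intro h
    apply hA3 i
    funext k
    have h1 := congrFun h k
    rw [Pi.zero_apply, map_eq_zero] at h1
    exact h1
  have hF'h : F'.IsHomogeneous (e + s) := by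
    rw [hF']
    refine hFh.mul ?_
    have h1 := MvPolynomial.IsHomogeneous.prod (Finset.univ : Finset (Fin s))
      (fun i => lf (fun k => φ (A (Fin.natAdd (n + 2) i) k))) (fun _ => 1)
      (fun i _ => lf_hom _)
    rwa [Finset.sum_const, Finset.card_univ, Fintype.card_fin, smul_eq_mul, mul_one] at h1
  obtain ⟨H, hH, hHd, hHe⟩ := comp_st n (e + s) F' hF'0 hF'h
  obtain ⟨B, hB⟩ : ∃ B, B = max 1 (Nat.size (e + s)) := ⟨_, rfl⟩
  have hB1 : e + s < 2 ^ B := by
    refine (Nat.lt_size_self (e + s)).trans_le ?_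
    rw [hB]
    exact Nat.pow_le_pow_right (by norm_num) (le_max_right _ _)
  have hB2 : 2 ^ B ≤ 2 * max 1 (d / m + s) := by
    rcases Nat.lt_or_ge (Nat.size (e + s)) 2 with h1 | h1
    · have h2 : B = 1 := by omega
      rw [h2]
      omega
    · obtain ⟨w, hw⟩ : ∃ w, Nat.size (e + s) = w + 1 := ⟨Nat.size (e + s) - 1, by omega⟩
      have hBs : B = w + 1 := by omega
      have h2 : ¬ e + s < 2 ^ w := by
        intro h3
        have h4 := Nat.size_le.2 h3
        omega
      rw [hBs, pow_succ]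
      omega
  obtain ⟨C, hC0, hcore⟩ := core_st K φ n B (by omega) H hH
    (fun α hα i => lt_of_le_of_lt (hHd α hα i) hB1)
  -- the bad primes
  obtain ⟨N0, hN0, hN0b⟩ := exists_bad (k := K)
    (Finset.univ.image fun p : Fin (n + 2 + s) × Fin (n + 1) => A p.1 p.2)
  obtain ⟨N, hN⟩ : ∃ N, N = 2 * m * N0 := ⟨_, rfl⟩
  have hNne : N ≠ 0 := by
    rw [hN]
    exact mul_ne_zero (mul_ne_zero two_ne_zero hm) hN0
  obtain ⟨r, hr⟩ : ∃ r : Fin (n + 2 + s) → ℕ, r = fun j => if j = j1 then 1 else m := ⟨_, rfl⟩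
  have hr1 : r j1 = 1 := by
    rw [hr]
    exact if_pos rfl
  have hrm : ∀ j, j ≠ j1 → r j = m := by
    intro j hj
    rw [hr]
    exact if_neg hj
  have hr0 : ∀ j, r j ≠ 0 := by
    intro j
    by_cases hj : j = j1
    · rw [hj, hr1]
      exact one_ne_zero
    · rw [hrm j hj]
      exact hm
  obtain ⟨ca, hca, Hadj⟩ := adj_all hNne _ r rfl hr0 (by
    intro j p hp hpr
    by_cases hj : j = j1
    · rw [hj, hr1] at hpr
      exact absurd (Nat.dvd_one.1 hpr) hp.ne_one
    · rw [hrm j hj] at hpr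
      rw [hN]
      exact (hpr.mul_left 2).mul_right N0)
  have hprod : ∏ j, r j = m ^ (n + 1 + s) := by
    rw [← Finset.mul_prod_erase Finset.univ r (Finset.mem_univ j1), hr1, one_mul,
      Finset.prod_congr rfl fun j hj => hrm j (Finset.ne_of_mem_erase hj), Finset.prod_const,
      Finset.card_erase_of_mem (Finset.mem_univ j1), Finset.card_univ, Fintype.card_fin]
    congr 1
    omega
  choose C3i hC3i0 hC3i using fun i : Fin s =>
    form_le K (lf (A (Fin.natAdd (n + 2) i))) (lf_hom _)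
  obtain ⟨C3, hC3⟩ : ∃ C3, C3 = ∑ i, C3i i := ⟨_, rfl⟩
  -- the left inverse
  obtain ⟨D, hD⟩ : ∃ D : Fin (n + 1) × Fin (n + 2 + s) → K, D = fun p =>
    if p.2 = Fin.castAdd s p.1.castSucc then (γ p.1)⁻¹ else 0 := ⟨_, rfl⟩
  have hDinv : ∀ (M : Type) [Field M] [Algebra K M] (P : Fin (n + 1) → M) (k : Fin (n + 1)),
      ∑ j, algebraMap K M (D (k, j)) * (∑ l, algebraMap K M (A j l) * P l) = P k := by
    intro M _ _ P k
    rw [Finset.sum_eq_single (Fin.castAdd s k.castSucc)]
    · rw [hA1, Finset.sum_eq_single k, hD]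
      · simp only [if_true, Pi.single_eq_same]
        rw [← mul_assoc, ← map_mul, inv_mul_cancel₀ (hγ k), map_one, one_mul]
      · intro l _ hl
        rw [Pi.single_eq_of_ne hl, map_zero, zero_mul]
      · intro h
        exact absurd (Finset.mem_univ k) h
    · intro j _ hj
      rw [hD]
      simp only
      rw [if_neg hj, map_zero, zero_mul]
    · intro h
      exact absurd (Finset.mem_univ _) h
  obtain ⟨C1, hC10, hC1⟩ := lin_le D
  -- the constants
  obtain ⟨θ, hθ⟩ : ∃ θ : ℝ, θ = c / m - 1 / n - s * (1 - 1 / m) := ⟨_, rfl⟩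
  have hθ0 : 0 < θ := by
    have h1 : θ = (c * n - (m + n * (s * (m - 1)))) / (m * n) := by
      rw [hθ]
      field_simp
      ring
    rw [h1]
    exact div_pos (by linarith) (mul_pos hmR0 hnR0)
  obtain ⟨C2, hC2⟩ : ∃ C2 : ℝ, C2 = 2 * C + s * ((1 - 1 / m) * C3) +
    ((n + 2 + s : ℕ) : ℝ) * Real.log N + ca := ⟨_, rfl⟩
  refine ⟨N, hNne, fun T => ?_⟩
  obtain ⟨N1, hN1⟩ := exists_nat_gt (((C2 + |T| + c / m * C1) / (n * θ) + C) /
    (2 * Real.log 2))
  rw [div_lt_iff₀ (by linarith)] at hN1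
  obtain ⟨μ, hNm, M, i1, i2, i3, σ, x, a, hσ, hHa, hdegM, hx0, ha01, hDM, hht, hloc⟩ := hcore N1
  have hNm' : (N1 : ℝ) ≤ μ := by exact_mod_cast hNm
  have hX : C2 + |T| + c / m * C1 < n * θ * (2 * μ * Real.log 2 - C) := by
    have h1 : (N1 : ℝ) * (2 * Real.log 2) ≤ μ * (2 * Real.log 2) :=
      mul_le_mul_of_nonneg_right hNm' (by linarith)
    have h2 : (C2 + |T| + c / m * C1) / (n * θ) < 2 * μ * Real.log 2 - C := by linarith
    have h3 : 0 < n * θ := mul_pos hnR0 hθ0
    rw [div_lt_iff₀ h3] at h2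
    linarith
  -- the values
  obtain ⟨b, hb⟩ : ∃ b : Fin (n + 2 + s) → M, b = fun j =>
    ∑ k, algebraMap K M (A j k) * st a k := ⟨_, rfl⟩
  have hsne : ∀ j, st a j ≠ 0 := st_ne a ha01
  have hbι : ∀ i : Fin (n + 1), b (Fin.castAdd s i.castSucc) = algebraMap K M (γ i) * st a i := by
    intro i
    rw [hb]
    simp only
    rw [hA1, Finset.sum_eq_single i]
    · rw [Pi.single_eq_same]
    · intro l _ hl
      rw [Pi.single_eq_of_ne hl, map_zero, zero_mul]
    · intro h
      exact absurd (Finset.mem_univ i) h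
  have hbj1 : b j1 = 1 := by
    rw [hb]
    simp only
    rw [hA2]
    simp only [map_one, one_mul]
    exact st_sum a
  have hsumσ : ∀ j, ∑ k, φ (A j k) * st (fun i => σ (a i)) k = σ (b j) := by
    intro j
    rw [hb]
    simp only
    rw [map_sum]
    refine Finset.sum_congr rfl fun k _ => ?_
    rw [map_mul, ← hσ, st_map]
    rfl
  rw [hHe, hF', map_mul, map_prod] at hHa
  have hHF := left_ne_zero_of_mul hHa
  have hHP := right_ne_zero_of_mul hHa
  have hbν : ∀ i : Fin s, b (Fin.natAdd (n + 2) i) ≠ 0 := by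
    intro i h
    have h1 := Finset.prod_ne_zero_iff.1 hHP i (Finset.mem_univ i)
    apply h1
    rw [lf_eval, hsumσ, h, map_zero]
  have hb0 : ∀ j, b j ≠ 0 := by
    intro j
    rcases hcases j with ⟨i, rfl⟩ | rfl | ⟨i, rfl⟩
    · rw [hbι]
      exact mul_ne_zero ((_root_.map_ne_zero _).2 (hγ i)) (hsne i)
    · rw [hbj1]
      exact one_ne_zero
    · exact hbν i
  -- good primes
  have hgood : ∀ v : HeightOneSpectrum (𝓞 M), ord v (N : M) = 0 → w3 x v = 0 →
      (∀ k, ord v (st a k) = 0) ∧ ∀ j k, ord v (algebraMap K M (A j k)) = 0 := by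
    intro v hvN hv3
    have h1 : ord v ((2 : ℕ) : M) = 0 :=
      ord_dvd hNne (by rw [hN, mul_assoc]; exact dvd_mul_right _ _) v hvN
    have h2 : ord v ((N0 : ℕ) : M) = 0 :=
      ord_dvd hNne (by rw [hN]; exact dvd_mul_left _ _) v hvN
    refine ⟨st_unit v a ha01 (hloc v (by exact_mod_cast h1) hv3), fun j k => ?_⟩
    exact hN0b M v h2 _ (Finset.mem_image.2 ⟨(j, k), Finset.mem_univ _, rfl⟩)
  have hFam : Fam N x b := by
    intro j v hvN hv3
    obtain ⟨h1, h2⟩ := hgood v hvN hv3
    rw [hb]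
    refine sum_int v _ _ fun k _ => ?_
    exact mul_nonneg' v (h2 j k).ge (h1 k).ge
  -- the roots in `ℂ`
  obtain ⟨z, hz, hzG⟩ := hF _ hHF (by
    intro j
    rw [hsumσ]
    exact (_root_.map_ne_zero σ).2 (hb0 j))
  have hz1 : z j1 ^ m = 1 := by
    rw [hz j1, hsumσ, hbj1, map_one]
  have hz10 : z j1 ≠ 0 := by
    intro h
    rw [h, zero_pow hm] at hz1
    exact zero_ne_one hz1
  obtain ⟨z', hz'⟩ : ∃ z' : Fin (n + 2 + s) → ℂ, z' = fun j => (z j1)⁻¹ * z j := ⟨_, rfl⟩
  have hz'1 : z' j1 = 1 := by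
    rw [hz']
    exact inv_mul_cancel₀ hz10
  have hz'm : ∀ j, z' j ^ m = σ (b j) := by
    intro j
    rw [hz']
    show ((z j1)⁻¹ * z j) ^ m = _
    rw [mul_pow, inv_pow, hz1, inv_one, one_mul, hz j, hsumσ]
  have hz'G : MvPolynomial.eval z' (MvPolynomial.map φ G) ≠ 0 := by
    rw [hz', eval_hom (hdeg.map φ)]
    exact mul_ne_zero (pow_ne_zero _ (inv_ne_zero hz10)) hzG
  -- the field
  obtain ⟨E, g1, g2, g3, τ, Y, hτ, hYr, hτY, hE, hDE⟩ := Hadj M σ x b hx0 hb0 hFam z' (by
    intro j
    by_cases hj : j = j1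
    · rw [hj, hr1, pow_one, hz'1, hbj1, map_one]
    · rw [hrm j hj]
      exact hz'm j)
  rw [hprod] at hE
  have hY1 : Y j1 = 1 := by
    have := hYr j1
    rw [hr1, pow_one, hbj1, map_one] at this
    exact this
  have hYm : ∀ j, Y j ^ m = algebraMap M E (b j) := by
    intro j
    by_cases hj : j = j1
    · rw [hj, hY1, one_pow, hbj1, map_one]
    · have := hYr j
      rwa [hrm j hj] at this
  let _ : Algebra K E := ((algebraMap M E).comp (algebraMap K M)).toAlgebra
  have hst : IsScalarTower K M E := IsScalarTower.of_algebraMap_eq fun _ => rfl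
  obtain ⟨L, Q, hQ, hQtop⟩ := adjoin_top (K := K) Y
  have fKM : Module.Finite K M := Module.Finite.of_restrictScalars_finite ℚ K M
  have fKE : Module.Finite K E := Module.Finite.of_restrictScalars_finite ℚ K E
  have nL : NumberField L := NumberField.of_module_finite K L
  have hKL : Module.finrank K L * Module.finrank L E = Module.finrank K E :=
    Module.finrank_mul_finrank K L E
  have hKM : Module.finrank K M * Module.finrank M E = Module.finrank K E :=
    Module.finrank_mul_finrank K M E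
  have hLE0 : 0 < Module.finrank L E := Module.finrank_pos
  have hKL0 : 0 < Module.finrank K L := Module.finrank_pos
  have hKM0 : 0 < Module.finrank K M := Module.finrank_pos
  have hME0 : 0 < Module.finrank M E := Module.finrank_pos
  have hK0 : 0 < Module.finrank ℚ K := Module.finrank_pos
  have halg : ∀ i, algebraMap L E (Q i) = Y i := hQ
  obtain ⟨xL, hxL⟩ : ∃ xL : Fin (n + 1) → L, xL = fun k =>
    ∑ j, algebraMap K L (D (k, j)) * Q j ^ m := ⟨_, rfl⟩
  have hxE : ∀ k, algebraMap L E (xL k) = algebraMap M E (st a k) := by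
    intro k
    have h1 := hDinv M (st a) k
    rw [← h1, hxL]
    show algebraMap L E (∑ j, algebraMap K L (D (k, j)) * Q j ^ m) = _
    rw [map_sum, map_sum]
    refine Finset.sum_congr rfl fun j _ => ?_
    rw [map_mul, map_mul, map_pow, halg, hYm, ← IsScalarTower.algebraMap_apply,
      ← IsScalarTower.algebraMap_apply, hb]
  refine ⟨L, inferInstance, nL, inferInstance, Q, xL, hQtop, ?_, ?_, ?_, ?_, ?_, ?_⟩
  · apply (algebraMap L E).injective
    rw [halg, hY1, map_one]
  · have h1 : Module.finrank K L ≤ Module.finrank K E := by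
      rw [← hKL]
      exact Nat.le_mul_of_pos_right _ hLE0
    refine h1.trans ?_
    rw [← hKM]
    have h2 : 2 ^ ((n - 1) * B) ≤ (2 * max 1 (d / m + s)) ^ (n - 1) := by
      rw [mul_comm (n - 1) B, pow_mul]
      exact Nat.pow_le_pow_left hB2 _
    exact Nat.mul_le_mul (hdegM.trans h2) hE
  · intro j
    apply (algebraMap L E).injective
    rw [map_pow, halg, hYm, hb, map_sum, map_sum]
    refine Finset.sum_congr rfl fun k _ => ?_
    rw [map_mul, map_mul, hxE, ← IsScalarTower.algebraMap_apply,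
      ← IsScalarTower.algebraMap_apply]
  · intro j h
    have h1 := hYm j
    rw [← halg, h, map_zero, zero_pow hm] at h1
    exact hb0 j ((map_eq_zero _).1 h1.symm)
  · intro h
    apply hz'G
    have h1 : τ (algebraMap L E (MvPolynomial.aeval Q G)) = 0 := by rw [h, map_zero, map_zero]
    rw [← h1, MvPolynomial.eval_map, MvPolynomial.aeval_def, MvPolynomial.hom_eval₂,
      MvPolynomial.hom_eval₂]
    congr 1
    · rw [← hσ, ← hτ]
      rfl
    · funext j
      show z' j = τ (algebraMap L E (Q j))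
      rw [halg, hτY]
  · -- the inequality
    intro R hR
    have d1 := descent (L := L) (M := E) R (w3 (algebraMap M E x)) (supp_w3 _)
      (fun w => w3_nonneg _ w) (by
        intro v hv w hw
        by_cases h3 : w3 (algebraMap M E x) w = 0
        · exfalso
          obtain ⟨hvN, j, k, hjk⟩ := hR v hv
          have hjk' := val_above (F := E) v w hw hjk
          rw [halg, halg] at hjk'
          have hwN : ord w (N : E) = 0 := by
            have h4 := ord_above v w hw (N : L)
            rw [hvN, mul_zero, map_natCast] at h4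
            exact h4
          obtain ⟨v', e', he', hvw⟩ := Pool.Agent.H431.LF.below (M := M) w
          have he'' : (e' : ℤ) ≠ 0 := by exact_mod_cast he'
          have hvN' : ord v' (N : M) = 0 := by
            have h4 := hvw (N : M)
            rw [map_natCast, hwN] at h4
            exact (mul_eq_zero.1 h4.symm).resolve_left he''
          rw [w3_ext v' w he' hvw x] at h3
          obtain ⟨g5, g6⟩ := hgood v' hvN' h3
          have hY0 : ∀ l, Y l ≠ 0 := by
            intro l h4
            have h5 := hYm l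
            rw [h4, zero_pow hm] at h5
            exact hb0 l ((map_eq_zero _).1 h5.symm)
          have hYo : ∀ l, (m : ℤ) * ord w (Y l) = e' * ord v' (b l) := by
            intro l
            rw [← hvw, ← hYm l, ord_pow]
          have hmZ : (0 : ℤ) < m := by exact_mod_cast hmpos
          have h7 : w.valuation E (Y k) ≤ 1 := by
            rw [← ord_nonneg_iff]
            have h8 := hYo k
            have h9 := hFam k v' hvN' h3
            have h10 : 0 ≤ (e' : ℤ) * ord v' (b k) := mul_nonneg (Int.natCast_nonneg _) h9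
            rw [← h8] at h10
            exact nonneg_of_mul_nonneg_right h10 hmZ
          have h8 : ord v' (b (Fin.castAdd s j)) = 0 := by
            refine Fin.lastCases ?_ (fun i => ?_) j
            · rw [← hj1, hbj1, ord_one]
            · rw [hbι, ord_mul v' ((_root_.map_ne_zero _).2 (hγ i)) (hsne i), g5 i, add_zero]
              have h9 := g6 (Fin.castAdd s i.castSucc) i
              rwa [hA1, Pi.single_eq_same] at h9
          have h9 : w.valuation E (Y (Fin.castAdd s j)) = 1 := by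
            rw [← ord_eq_zero_iff w (hY0 _)]
            have h10 := hYo (Fin.castAdd s j)
            rw [h8, mul_zero] at h10
            exact (mul_eq_zero.1 h10).resolve_left hmZ.ne'
          rw [h9] at hjk'
          exact absurd (hjk'.trans_le h7) (lt_irrefl _)
        · exact w3_ge h3)
    obtain ⟨hh, hhe⟩ : ∃ hh : ℝ, hh = logHeight (st a) := ⟨_, rfl⟩
    -- the weights
    have d2 := gw_sum (x := x) hm hNne hb0 (r := r)
      (Finset.univ.image fun i : Fin s => (Fin.natAdd (n + 2) i : Fin (n + 2 + s)))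
      (by
        intro j hj
        obtain ⟨i, -, rfl⟩ := Finset.mem_image.1 hj
        exact hrm _ (hν i))
      (by
        intro j hj
        rcases hcases j with ⟨i, rfl⟩ | rfl | ⟨i, rfl⟩
        · right
          intro v hvN hv3
          obtain ⟨h1, h2⟩ := hgood v hvN hv3
          rw [hbι, ord_mul v ((_root_.map_ne_zero _).2 (hγ i)) (hsne i), h1 i, add_zero]
          have h3 := h2 (Fin.castAdd s i.castSucc) i
          rwa [hA1, Pi.single_eq_same] at h3
        · exact Or.inl hr1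
        · exact absurd (Finset.mem_image.2 ⟨i, Finset.mem_univ i, rfl⟩) hj)
      (A := hh + Module.finrank ℚ M * C3)
      (by
        intro j hj R hR
        obtain ⟨i, -, rfl⟩ := Finset.mem_image.1 hj
        have h1 := hC3i i M (st a) R (by
          rw [lf_aeval]
          have := hbν i
          rw [hb] at this
          exact this) (by
          intro w hw
          obtain ⟨h2, h3, h4⟩ := hR w hw
          refine ⟨0, ?_⟩
          obtain ⟨h5, -⟩ := hgood w h2 h3
          rw [lf_aeval, pow_one, (ord_eq_zero_iff w (hsne 0)).1 (h5 0)]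
          rw [ord_pos_iff w (hbν i), hb] at h4
          exact h4)
        have h2 : C3i i ≤ C3 := by
          rw [hC3]
          exact Finset.single_le_sum (f := C3i) (fun i _ => hC3i0 i) (Finset.mem_univ i)
        have h3 : (Module.finrank ℚ M : ℝ) * C3i i ≤ Module.finrank ℚ M * C3 :=
          mul_le_mul_of_nonneg_left h2 (Nat.cast_nonneg _)
        rw [← hhe] at h1
        push_cast at h1
        linarith)
    have hcard : (Finset.univ.image fun i : Fin s =>
        (Fin.natAdd (n + 2) i : Fin (n + 2 + s))).card = s := by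
      rw [Finset.card_image_of_injective _ (Fin.natAdd_injective _ _), Finset.card_univ,
        Fintype.card_fin]
    rw [hcard] at d2
    have d5 : logHeight Y = Module.finrank L E * logHeight Q := by
      have h1 := Pool.Agent.Helper259.HtExt.logHeight_ext (K := L) (L := E) Q
      rw [← h1]
      congr 1
      funext i
      exact (halg i).symm
    have d7 : logHeight (st a) ≤ logHeight b + Module.finrank ℚ M * C1 := by
      have h1 := hC1 M b
      have h2 : (fun k => ∑ j, algebraMap K M (D (k, j)) * b j) = st a := by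
        funext k
        have h3 := hDinv M (st a) k
        rw [hb]
        exact h3
      rwa [h2] at h1
    have d8 : m * logHeight Y = Module.finrank M E * logHeight b := by
      have h1 := logHeight_pow Y m
      have h2 := Pool.Agent.Helper259.HtExt.logHeight_ext (K := M) (L := E) b
      rw [← h1, ← h2]
      congr 1
      funext j
      exact hYm j
    have hQM : (Module.finrank ℚ M : ℝ) = Module.finrank ℚ K * Module.finrank K M := by
      exact_mod_cast (Module.finrank_mul_finrank ℚ K M).symm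
    have hsmE : 0 ≤ sm (w3 (algebraMap M E x)) := sm_nonneg fun w => w3_nonneg _ w
    rw [← hhe] at d7 hht
    rw [hQM] at d2 d7 hht hDE
    refine final_real n m s ((n + 2 + s : ℕ) : ℝ) (Module.finrank ℚ K) (Module.finrank K M)
      (Module.finrank M E) (Module.finrank K L) (Module.finrank L E) (2 * μ * Real.log 2) C C1 C2
      C3 ca (Real.log N) hh (logHeight b) (logHeight Q) (DD K) (DD M) (sm (w3 x))
      (sm (gw x b r)) (DD E + sm (w3 (algebraMap M E x))) (DD L + ∑ v ∈ R, ell v) T c θ hnR0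
      (by exact_mod_cast hK0) (by exact_mod_cast hKM0) (by exact_mod_cast hME0)
      (by exact_mod_cast hLE0) (by exact_mod_cast hKL.trans hKM.symm) hmR0 hc0
      (by rw [hθ]; ring) hθ0 hC2 hX ?_ ?_ ?_ ?_ ?_ ?_ ?_
    · exact d1
    · refine hDE.trans (le_of_eq ?_)
      ring
    · exact d2
    · exact hDM
    · exact hht
    · exact d7
    · rw [← d5]
      exact d8

/-- forms in any number of variables -/
theorem form_le_q (K : Type) [Field K] [NumberField K] {q f : ℕ} (hq : q ≠ 0)
    (F : MvPolynomial (Fin q) K) (hF : F.IsHomogeneous f) :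
    ∃ C : ℝ, 0 ≤ C ∧ ∀ (M : Type) [Field M] [NumberField M] [Algebra K M] (P : Fin q → M)
      (R : Finset (HeightOneSpectrum (𝓞 M))), MvPolynomial.aeval P F ≠ 0 →
      (∀ w ∈ R, ∃ k, w.valuation M (MvPolynomial.aeval P F) < (w.valuation M (P k)) ^ f) →
      ∑ w ∈ R, ell w ≤ f * logHeight P + Module.finrank ℚ M * C := by
  obtain ⟨q', rfl⟩ := Nat.exists_eq_succ_of_ne_zero hq
  exact form_le K F hF

/-- **divisors** -/
theorem main_div (K : Type) [Field K] [NumberField K] (n m s d f : ℕ) (hn : 1 ≤ n) (hm : m ≠ 0)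
    (A : Fin (n + 2 + s) → Fin (n + 1) → K) (γ : Fin (n + 1) → K) (hγ : ∀ i, γ i ≠ 0)
    (hA1 : ∀ i : Fin (n + 1), A (Fin.castAdd s i.castSucc) = Pi.single i (γ i))
    (hA2 : A (Fin.castAdd s (Fin.last (n + 1))) = fun _ => 1)
    (hA3 : ∀ i : Fin s, A (Fin.natAdd (n + 2) i) ≠ 0)
    (G : MvPolynomial (Fin (n + 2 + s)) K) (hdeg : G.IsHomogeneous d)
    (F : MvPolynomial (Fin (n + 2 + s)) K) (hFdeg : F.IsHomogeneous f)
    (L0 : Type) [Field L0] [NumberField L0] [Algebra K L0] (y0 : Fin (n + 2 + s) → L0)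
    (x0 : Fin (n + 1) → L0) (h0 : ∀ j, y0 j ^ m = ∑ k, algebraMap K L0 (A j k) * x0 k)
    (hG : MvPolynomial.aeval y0 G ≠ 0) (hF0 : MvPolynomial.aeval y0 F ≠ 0) (c : ℝ)
    (hc : (m : ℝ) + n * (s * (m - 1)) < c * n) (T : ℝ) :
    ∃ (L : Type) (_ : Field L) (_ : NumberField L) (_ : Algebra K L)
      (y : Fin (n + 2 + s) → L) (x : Fin (n + 1) → L),
      adjoin K (Set.range y) = ⊤ ∧ y (Fin.castAdd s (Fin.last (n + 1))) = 1 ∧
      Module.finrank K L ≤ (2 * max 1 ((d + f) / m + s)) ^ (n - 1) * m ^ (n + 1 + s) ∧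
      (∀ j, y j ^ m = ∑ k, algebraMap K L (A j k) * x k) ∧ (∀ j, y j ≠ 0) ∧
      MvPolynomial.aeval y F ≠ 0 ∧
      MvPolynomial.aeval y G ≠ 0 ∧ ∀ R : Finset (HeightOneSpectrum (𝓞 L)),
      (∀ v ∈ R, ∃ k : Fin (n + 2 + s),
        (∃ j : Fin (n + 2), v.valuation L (y (Fin.castAdd s j)) < v.valuation L (y k)) ∨
        v.valuation L (MvPolynomial.aeval y F) < v.valuation L (y k) ^ f) →
      DD L + ∑ v ∈ R, ell v + Module.finrank K L * (T - DD K) < (f + c) * logHeight y := by
  classical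
  obtain ⟨N, hN, H⟩ := main_ciD K n m s (d + f) hn hm A γ hγ hA1 hA2 hA3 (G * F)
    (hdeg.mul hFdeg) L0 y0 x0 h0 (by rw [map_mul]; exact mul_ne_zero hG hF0) c hc
  obtain ⟨C, hC, HF⟩ := form_le_q K (by omega) F hFdeg
  obtain ⟨T', hT'⟩ : ∃ T', T' = T + Module.finrank ℚ K * (Real.log N + C) := ⟨_, rfl⟩
  obtain ⟨L, i1, i2, i3, y, x, hy, hy1, hdegL, hyx, hy0, hGF, hmain⟩ := H T'
  rw [map_mul] at hGF
  refine ⟨L, i1, i2, i3, y, x, hy, hy1, hdegL, hyx, hy0, right_ne_zero_of_mul hGF,
    left_ne_zero_of_mul hGF, fun R hR => ?_⟩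
  obtain ⟨R1, hR1⟩ : ∃ R1, R1 = R.filter (fun w => ord w (N : L) = 0 ∧
      ∃ (j : Fin (n + 2)) (k : Fin (n + 2 + s)),
        w.valuation L (y (Fin.castAdd s j)) < w.valuation L (y k)) := ⟨_, rfl⟩
  obtain ⟨R2, hR2⟩ : ∃ R2, R2 = R.filter (fun w => ord w (N : L) ≠ 0) := ⟨_, rfl⟩
  obtain ⟨R3, hR3⟩ : ∃ R3, R3 = R.filter (fun w => ∃ k,
    w.valuation L (MvPolynomial.aeval y F) < w.valuation L (y k) ^ f) := ⟨_, rfl⟩
  have hRs : R ⊆ R1 ∪ (R2 ∪ R3) := by
    intro w hw
    rw [Finset.mem_union, Finset.mem_union, hR1, hR2, hR3, Finset.mem_filter, Finset.mem_filter,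
      Finset.mem_filter]
    obtain ⟨k, ⟨j, hj⟩ | hj⟩ := hR w hw
    · by_cases hN0 : ord w (N : L) = 0
      · left
        exact ⟨hw, hN0, j, k, hj⟩
      · right; left
        exact ⟨hw, hN0⟩
    · right; right
      exact ⟨hw, k, hj⟩
  have s1 : ∑ v ∈ R, ell v ≤ ∑ v ∈ R1, ell v + (∑ v ∈ R2, ell v + ∑ v ∈ R3, ell v) := by
    refine (Finset.sum_le_sum_of_subset_of_nonneg hRs fun w _ _ => (ell_pos w).le).trans ?_
    have h1 := Finset.sum_union_inter (s₁ := R1) (s₂ := R2 ∪ R3) (f := fun w => ell w)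
    have h2 := Finset.sum_union_inter (s₁ := R2) (s₂ := R3) (f := fun w => ell w)
    have h3 : 0 ≤ ∑ w ∈ R1 ∩ (R2 ∪ R3), ell w := Finset.sum_nonneg fun w _ => (ell_pos w).le
    have h4 : 0 ≤ ∑ w ∈ R2 ∩ R3, ell w := Finset.sum_nonneg fun w _ => (ell_pos w).le
    linarith
  have s2 := hmain R1 (by
    intro w hw
    rw [hR1, Finset.mem_filter] at hw
    exact hw.2)
  have s3 : ∑ v ∈ R2, ell v ≤ Module.finrank ℚ L * Real.log N := by
    have h1 := (zeros_le (K := L) (N : L)).trans (height_nat hN)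
    refine le_trans ?_ h1
    have h2 : ∑ v ∈ R2, ell v ≤ ∑ v ∈ R2, max 0 (ord v (N : L) : ℝ) * ell v := by
      refine Finset.sum_le_sum fun v hv => ?_
      rw [hR2, Finset.mem_filter] at hv
      have h3 := nat_nonneg v N
      have h4 : 1 ≤ ord v (N : L) := by
        have := hv.2
        omega
      have h5 : (1 : ℝ) ≤ ord v (N : L) := by exact_mod_cast h4
      have h6 := ell_pos v
      rw [max_eq_right (by linarith)]
      nlinarith
    refine h2.trans ?_
    unfold sm
    rw [finsum_eq_sum_of_support_subset (s := (supp_mul (supp_zeros (N : L))).toFinset ∪ R2)]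
    · refine Finset.sum_le_sum_of_subset_of_nonneg Finset.subset_union_right fun v _ _ => ?_
      exact mul_nonneg (le_max_left _ _) (ell_pos v).le
    · rw [Finset.coe_union, Set.Finite.coe_toFinset]
      exact Set.subset_union_left
  have s4 := HF L y R3 (right_ne_zero_of_mul hGF) (by
    intro w hw
    rw [hR3, Finset.mem_filter] at hw
    exact hw.2)
  have e2 : (Module.finrank ℚ L : ℝ) = Module.finrank ℚ K * Module.finrank K L := by
    exact_mod_cast (Module.finrank_mul_finrank ℚ K L).symm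
  rw [e2] at s3 s4
  rw [hT'] at s2
  linarith

end Pool.Agent.H431.KU
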