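import Pool.Agent.H431.PN.Adj

/-!
# Extensions by roots of prime order: discriminants and weighted sums over the primes
-/

set_option autoImplicit false

namespace Pool.Agent.H431.KU

open NumberField IsDedekindDomain Height Pool.Agent.Q290.NF IntermediateField
open Pool.Agent.H431.OC

section

variable {k F : Type} [Field k] [NumberField k] [Field F] [NumberField F] [Algebra k F]

/-- roots of elements of order divisible by `p` -/
theorem unram {p : ℕ} (hp : p ≠ 0) (x : F) (a : k) (ha : a ≠ 0) (hx : x ^ p = algebraMap k F a)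
    (hadj : k⟮x⟯ = ⊤) (v : HeightOneSpectrum (𝓞 k)) (P : HeightOneSpectrum (𝓞 F))
    (hP : P.asIdeal.comap (algebraMap (𝓞 k) (𝓞 F)) = v.asIdeal)
    (h2 : ord v (p : k) = 0) (he : (p : ℤ) ∣ ord v a) :
    ¬ P.asIdeal ∣ differentIdeal (𝓞 k) (𝓞 F) := by
  obtain ⟨π, hπ0, hπ⟩ := exists_unif v
  obtain ⟨m, hm⟩ := he
  obtain ⟨c, hc⟩ : ∃ c : k, c = π ^ (-m) := ⟨_, rfl⟩
  have hc0 : c ≠ 0 := by rw [hc]; exact zpow_ne_zero _ hπ0
  have hoc : ord v c = -m := by
    rw [hc]
    unfold ord at hπ ⊢
    rw [map_zpow₀, WithZero.log_zpow]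
    rw [neg_eq_iff_eq_neg] at hπ
    rw [hπ]
    simp
  have hcF : algebraMap k F c ≠ 0 := (map_ne_zero _).2 hc0
  refine kummer_unram (l := p) hp (algebraMap k F c * x) (c ^ p * a) ?_ ?_ v P hP ?_ ?_
  · rw [mul_pow, hx, map_mul, map_pow]
  · rw [← hadj]
    apply le_antisymm
    · rw [adjoin_simple_le_iff]
      exact mul_mem (_root_.algebraMap_mem _ _) (mem_adjoin_simple_self k x)
    · rw [adjoin_simple_le_iff]
      have h1 : x = (algebraMap k F c)⁻¹ * (algebraMap k F c * x) := by
        rw [inv_mul_cancel_left₀ hcF]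
      have h3 : (algebraMap k F c)⁻¹ * (algebraMap k F c * x) ∈ k⟮algebraMap k F c * x⟯ :=
        mul_mem (inv_mem (_root_.algebraMap_mem _ _)) (mem_adjoin_simple_self k _)
      rwa [← h1] at h3
  · exact (ord_eq_zero_iff v (Nat.cast_ne_zero.2 hp)).1 h2
  · refine (ord_eq_zero_iff v (mul_ne_zero (pow_ne_zero _ hc0) ha)).1 ?_
    rw [ord_mul v (pow_ne_zero _ hc0) ha, ord_pow, hoc, hm]
    ring

/-- a divisor of a unit is a unit -/
theorem ord_dvd {p N : ℕ} (hN : N ≠ 0) (hpN : p ∣ N) (v : HeightOneSpectrum (𝓞 k))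
    (h : ord v (N : k) = 0) : ord v (p : k) = 0 := by
  obtain ⟨q, rfl⟩ := hpN
  have hp0 : p ≠ 0 := left_ne_zero_of_mul hN
  have hq0 : q ≠ 0 := right_ne_zero_of_mul hN
  rw [Nat.cast_mul, ord_mul v (Nat.cast_ne_zero.2 hp0) (Nat.cast_ne_zero.2 hq0)] at h
  have h1 := nat_nonneg v p
  have h2 := nat_nonneg v q
  omega

theorem prime_ineq {p : ℕ} (hp : p.Prime) {N : ℕ} (hN : N ≠ 0) (hpN : p ∣ N) (x : F) (a : k)
    (ha : a ≠ 0) (hx : x ^ p = algebraMap k F a) (hadj : k⟮x⟯ = ⊤)
    {B : ℝ} (hB : 0 ≤ B) (f : HeightOneSpectrum (𝓞 F) → ℝ) (g : HeightOneSpectrum (𝓞 k) → ℝ)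
    (hf : (Function.support f).Finite) (hg : (Function.support g).Finite)
    (hf0 : ∀ w, 0 ≤ f w) (hfB : ∀ w, f w ≤ B) (hg0 : ∀ v, 0 ≤ g v)
    (H : ∀ (v : HeightOneSpectrum (𝓞 k)) (w : HeightOneSpectrum (𝓞 F)) (e : ℕ), e ≠ 0 →
      ord v (N : k) = 0 → (∀ z : k, ord w (algebraMap k F z) = e * ord v z) →
      ((p : ℤ) ∣ ord v a → f w ≤ e * g v) ∧
      (¬ (p : ℤ) ∣ ord v a → e = p → (p - 1 : ℝ) + f w ≤ p * g v)) :
    DD F + sm f ≤ Module.finrank k F * (DD k + sm g +
      Module.finrank ℚ k * ((B + 1) * Real.log N + Real.log (p.factorial : ℕ))) := by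
  classical
  have hp1 : 1 < p := hp.one_lt
  obtain ⟨n, hn⟩ : ∃ n : ℕ, n = Module.finrank k F := ⟨_, rfl⟩
  have hn1 : 1 ≤ n := by rw [hn]; exact Module.finrank_pos
  have hn2 : n ≤ p := by
    obtain ⟨-, h⟩ := finrank_simple (l := p) hp.ne_zero x a hx
    rw [hadj, finrank_top'] at h
    rw [hn]
    exact h
  have hn1' : (1 : ℝ) ≤ n := by exact_mod_cast hn1
  have hn2' : (n : ℝ) ≤ p := by exact_mod_cast hn2
  have hNk : (N : k) ≠ 0 := Nat.cast_ne_zero.2 hN
  -- the ramified primes
  have hVfin : ({v : HeightOneSpectrum (𝓞 k) | ord v (N : k) ≠ 0 ∨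
      ¬ (p : ℤ) ∣ ord v a}).Finite := by
    refine ((fin_ord hNk).union (fin_ord ha)).subset fun v hv => ?_
    rcases hv with h | h
    · exact Or.inl h
    · right
      intro h0
      rw [h0] at h
      exact h (dvd_zero _)
  obtain ⟨V, hV⟩ : ∃ V, V = hVfin.toFinset := ⟨_, rfl⟩
  have memV : ∀ v, v ∈ V ↔ (ord v (N : k) ≠ 0 ∨ ¬ (p : ℤ) ∣ ord v a) := by
    intro v
    rw [hV, Set.Finite.mem_toFinset]
    rfl
  have hdisc := Pool.Agent.Y729.DB.disc_le (k := k) (F := F) V (fun P hP => by
    refine ⟨P.under (𝓞 k), ?_, rfl⟩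
    rw [memV]
    by_contra hc
    rw [not_or, not_not, not_not] at hc
    exact unram hp.ne_zero x a ha hx hadj (P.under (𝓞 k)) P rfl
      (ord_dvd hN hpN _ hc.1) hc.2 hP)
  unfold DD
  rw [← hn] at hdisc ⊢
  have hfac : Real.log ((n.factorial : ℕ) : ℝ) ≤ Real.log (p.factorial : ℕ) := by
    refine Real.log_le_log (by exact_mod_cast Nat.factorial_pos _)
      (by exact_mod_cast Nat.factorial_le hn2)
  have hd0 : (0 : ℝ) ≤ Module.finrank ℚ k := Nat.cast_nonneg _
  -- the finite sets
  obtain ⟨W, hW⟩ : ∃ W, W = hf.toFinset := ⟨_, rfl⟩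
  obtain ⟨R, hR⟩ : ∃ R, R = V ∪ W.image (fun w => w.under (𝓞 k)) ∪ hg.toFinset := ⟨_, rfl⟩
  have hsf : sm f = ∑ w ∈ W, f w * ell w := by
    unfold sm
    refine finsum_eq_sum_of_support_subset _ fun w hw => ?_
    rw [hW, Set.Finite.coe_toFinset]
    exact left_ne_zero_of_mul hw
  have hsg : sm g = ∑ v ∈ R, g v * ell v := by
    unfold sm
    refine finsum_eq_sum_of_support_subset _ fun v hv => ?_
    have h1 : v ∈ Function.support g := left_ne_zero_of_mul hv
    rw [hR, Finset.mem_coe, Finset.mem_union, Set.Finite.mem_toFinset]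
    exact Or.inr h1
  have hfib : ∑ w ∈ W, f w * ell w = ∑ v ∈ R, ∑ w ∈ W with w.under (𝓞 k) = v, f w * ell w := by
    have hmaps : ∀ w ∈ W, w.under (𝓞 k) ∈ R := by
      intro w hw
      rw [hR, Finset.mem_union, Finset.mem_union]
      exact Or.inl (Or.inr (Finset.mem_image_of_mem _ hw))
    exact (Finset.sum_fiberwise_of_maps_to hmaps (fun w => f w * ell w)).symm
  have hVR : V ⊆ R := by
    rw [hR]
    exact Finset.subset_union_left.trans Finset.subset_union_left
  have hsV : ∑ v ∈ V, Real.log (Ideal.absNorm v.asIdeal : ℝ) =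
      ∑ v ∈ R, (if v ∈ V then ell v else 0) := by
    rw [Finset.sum_ite_mem, Finset.inter_eq_right.2 hVR]
    rfl
  -- the local inequality
  have key : ∀ v ∈ R, ((n : ℝ) - 1) * (if v ∈ V then ell v else 0) +
      ∑ w ∈ W with w.under (𝓞 k) = v, f w * ell w ≤
      n * (g v * ell v) + n * ((B + 1) * (max 0 (ord v (N : k) : ℝ) * ell v)) := by
    intro v _
    have hlv := ell_pos v
    have hlie : ∀ w ∈ W.filter (fun w => w.under (𝓞 k) = v), w.asIdeal.LiesOver v.asIdeal := by
      intro w hw
      rw [Finset.mem_filter] at hw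
      rw [← hw.2]
      exact ⟨rfl⟩
    by_cases h2 : ord v (N : k) = 0
    · have hpos : 0 ≤ n * ((B + 1) * (max 0 (ord v (N : k) : ℝ) * ell v)) := by positivity
      by_cases he : (p : ℤ) ∣ ord v a
      · have hvV : v ∉ V := by
          rw [memV, not_or, not_not, not_not]
          exact ⟨h2, he⟩
        rw [if_neg hvV, mul_zero, zero_add]
        have h3 := local_bound v _ hlie f (hg0 v) (fun w hw => by
          have hl := hlie w hw
          exact (H v w _ (ram_ne v w hl) h2 (fun z => ord_above v w hl z)).1 he)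
        rw [← hn] at h3
        linarith
      · have hvV : v ∈ V := by
          rw [memV]
          exact Or.inr he
        rw [if_pos hvV]
        have hram : ∀ w : HeightOneSpectrum (𝓞 F), w.asIdeal.LiesOver v.asIdeal →
            v.asIdeal.ramificationIdx' w.asIdeal = p ∧ n = p ∧
              (p - 1 : ℝ) + f w ≤ p * g v := by
          intro w hl
          have e1 := ord_above v w hl a
          rw [← hx, ord_pow] at e1
          have hle := sum_local v {w} (by
            intro w' hw'
            rw [Finset.mem_singleton] at hw'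
            rw [hw']
            exact hl)
          rw [Finset.sum_singleton, ← hn] at hle
          have hle' : v.asIdeal.ramificationIdx' w.asIdeal * v.asIdeal.inertiaDeg' w.asIdeal ≤
              n := by exact_mod_cast hle
          have hr0 := ram_ne v w hl
          have hi0 := inert_ne v w hl
          have hr2 : v.asIdeal.ramificationIdx' w.asIdeal ≤ n := by
            refine le_trans ?_ hle'
            exact Nat.le_mul_of_pos_right _ (Nat.pos_of_ne_zero hi0)
          have hdv : p ∣ v.asIdeal.ramificationIdx' w.asIdeal := by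
            have h5 : (p : ℤ) ∣ (v.asIdeal.ramificationIdx' w.asIdeal : ℤ) * ord v a := by
              rw [← e1]
              exact dvd_mul_right _ _
            rcases (Nat.prime_iff_prime_int.1 hp).dvd_or_dvd h5 with h6 | h6
            · exact_mod_cast h6
            · exact absurd h6 he
          have e2 : v.asIdeal.ramificationIdx' w.asIdeal = p := by
            have h7 := Nat.le_of_dvd (Nat.pos_of_ne_zero hr0) hdv
            omega
          refine ⟨e2, by omega, ?_⟩
          exact (H v w _ hr0 h2 (fun z => ord_above v w hl z)).2 he e2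
        obtain ⟨w0, hw0⟩ := Pool.Agent.Y729.DB.exists_above (F := F) v
        obtain ⟨-, hn2e, hg1⟩ := hram w0 ⟨hw0.symm⟩
        have hf00 := hf0 w0
        have hp0 : (0 : ℝ) < p := by exact_mod_cast hp.pos
        have hp1' : (1 : ℝ) < p := by exact_mod_cast hp1
        have h3 := local_bound v _ hlie f (c := (p * g v - (p - 1)) / p)
          (div_nonneg (by linarith) hp0.le) (fun w hw => by
          obtain ⟨e2, -, h4⟩ := hram w (hlie w hw)
          rw [e2, mul_div_cancel₀ _ hp0.ne']
          linarith)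
        rw [← hn, hn2e] at h3
        rw [hn2e]
        have e3 : (p : ℝ) * ((p * g v - (p - 1)) / p * ell v) =
            (p * g v - (p - 1)) * ell v := by
          field_simp
        rw [e3] at h3
        rw [hn2e] at hpos
        nlinarith
    · have h5 : (1 : ℝ) ≤ max 0 (ord v (N : k) : ℝ) := by
        have h6 : 0 ≤ ord v (N : k) := nat_nonneg v N
        have h7 : 1 ≤ ord v (N : k) := by omega
        exact le_max_of_le_right (by exact_mod_cast h7)
      have h3 := local_bound v _ hlie f hB (fun w hw => by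
        have h8 : (1 : ℝ) ≤ (v.asIdeal.ramificationIdx' w.asIdeal : ℝ) := by
          exact_mod_cast Nat.one_le_iff_ne_zero.2 (ram_ne v w (hlie w hw))
        have := hfB w
        nlinarith)
      rw [← hn] at h3
      have h9 : (if v ∈ V then ell v else 0) ≤ ell v := by
        split_ifs
        · exact le_rfl
        · exact hlv.le
      have h10 : 0 ≤ g v * ell v := mul_nonneg (hg0 v) hlv.le
      have h11 : ell v ≤ max 0 (ord v (N : k) : ℝ) * ell v := by nlinarith
      have h12 : ((n : ℝ) - 1) * (if v ∈ V then ell v else 0) ≤ (n - 1) * ell v :=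
        mul_le_mul_of_nonneg_left h9 (by linarith)
      have h13 : (B + 1) * ell v ≤ (B + 1) * (max 0 (ord v (N : k) : ℝ) * ell v) :=
        mul_le_mul_of_nonneg_left h11 (by linarith)
      have h14 : (n : ℝ) * ((B + 1) * ell v) ≤
          n * ((B + 1) * (max 0 (ord v (N : k) : ℝ) * ell v)) :=
        mul_le_mul_of_nonneg_left h13 (by linarith)
      have h15 : 0 ≤ (n : ℝ) * (g v * ell v) := by positivity
      nlinarith
  have hsum := Finset.sum_le_sum key
  rw [Finset.sum_add_distrib, Finset.sum_add_distrib, ← Finset.mul_sum, ← Finset.mul_sum,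
    ← Finset.mul_sum, ← Finset.mul_sum, ← hsV, ← hfib, ← hsg, ← hsf] at hsum
  have h2s : ∑ v ∈ R, max 0 (ord v (N : k) : ℝ) * ell v ≤ Module.finrank ℚ k * Real.log N := by
    have h1 := zeros_le (K := k) (N : k)
    have h2 := height_nat (K := k) hN
    refine le_trans ?_ (h1.trans h2)
    unfold sm
    have h3 : ∑ v ∈ R, max 0 (ord v (N : k) : ℝ) * ell v ≤
        ∑ v ∈ R ∪ (supp_mul (supp_zeros (K := k) (N : k))).toFinset,
          max 0 (ord v (N : k) : ℝ) * ell v := by
      refine Finset.sum_le_sum_of_subset_of_nonneg Finset.subset_union_left ?_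
      intro v _ _
      exact mul_nonneg (le_max_left _ _) (ell_pos v).le
    refine h3.trans (le_of_eq (finsum_eq_sum_of_support_subset _ ?_).symm)
    intro v hv
    rw [Finset.coe_union, Set.Finite.coe_toFinset]
    exact Or.inr hv
  have h3 : (n : ℝ) * ((B + 1) * ∑ v ∈ R, max 0 (ord v (N : k) : ℝ) * ell v) ≤
      n * ((B + 1) * (Module.finrank ℚ k * Real.log N)) :=
    mul_le_mul_of_nonneg_left (mul_le_mul_of_nonneg_left h2s (by linarith)) (by linarith)
  have h4 : (n : ℝ) * (Module.finrank ℚ k * Real.log ((n.factorial : ℕ) : ℝ)) ≤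
      n * (Module.finrank ℚ k * Real.log (p.factorial : ℕ)) :=
    mul_le_mul_of_nonneg_left (mul_le_mul_of_nonneg_left hfac hd0) (by linarith)
  nlinarith

end

end Pool.Agent.H431.KU
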