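import Pool.Agent.H431.KU.All

/-!
# The sum of the weights; the final computation
-/

set_option autoImplicit false

namespace Pool.Agent.H431.KU

open NumberField IsDedekindDomain Height Pool.Agent.Q290.NF IntermediateField
open Pool.Agent.H431.OC Pool.Agent.H431.MT Pool.Agent.H431.PN

/-- the sum of the weights -/
theorem gw_sum {M : Type} [Field M] [NumberField M] {x : M} {q m N : ℕ} (hm : m ≠ 0)
    (hN : N ≠ 0) {b : Fin q → M} (hb : ∀ j, b j ≠ 0) {r : Fin q → ℕ} (J : Finset (Fin q))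
    (hJ : ∀ j ∈ J, r j = m) (hJ' : ∀ j, j ∉ J → r j = 1 ∨
      ∀ v : HeightOneSpectrum (𝓞 M), ord v (N : M) = 0 → w3 x v = 0 → ord v (b j) = 0) {A : ℝ}
    (hA : ∀ j ∈ J, ∀ R : Finset (HeightOneSpectrum (𝓞 M)),
      (∀ v ∈ R, ord v (N : M) = 0 ∧ w3 x v = 0 ∧ 0 < ord v (b j)) → ∑ v ∈ R, ell v ≤ A) :
    sm (gw x b r) ≤ sm (w3 x) + J.card * ((1 - 1 / (m : ℝ)) * A) +
      q * (Module.finrank ℚ M * Real.log N) := by
  classical
  have hm1 : (1 : ℝ) ≤ m := by exact_mod_cast Nat.one_le_iff_ne_zero.2 hm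
  have hθ : 0 ≤ 1 - 1 / (m : ℝ) := by
    rw [sub_nonneg, div_le_one (by linarith)]
    exact hm1
  have hR : ∀ j, ({v : HeightOneSpectrum (𝓞 M) | ord v (N : M) = 0 ∧ w3 x v = 0 ∧
      0 < ord v (b j)}).Finite := fun j => (fin_ord (hb j)).subset fun v hv => hv.2.2.ne'
  obtain ⟨gg, hgg⟩ : ∃ gg : Fin q → HeightOneSpectrum (𝓞 M) → ℝ, gg = fun j v =>
    if ord v (N : M) = 0 ∧ w3 x v = 0 ∧ 0 < ord v (b j) then 1 - 1 / (m : ℝ) else 0 := ⟨_, rfl⟩
  have hgs : ∀ j, (Function.support (gg j)).Finite := by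
    intro j
    refine (hR j).subset fun v hv => ?_
    rw [hgg] at hv
    by_contra hc
    exact hv (if_neg hc)
  have hgsum : ∀ j ∈ J, sm (gg j) ≤ (1 - 1 / (m : ℝ)) * A := by
    intro j hj
    have h1 := hA j hj (hR j).toFinset (fun v hv => by
      rw [Set.Finite.mem_toFinset] at hv
      exact hv)
    have h2 : sm (gg j) = (1 - 1 / (m : ℝ)) * ∑ v ∈ (hR j).toFinset, ell v := by
      unfold sm
      rw [finsum_eq_sum_of_support_subset (s := (hR j).toFinset), Finset.mul_sum]
      · refine Finset.sum_congr rfl fun v hv => ?_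
        rw [Set.Finite.mem_toFinset, Set.mem_ofPred_eq] at hv
        rw [hgg]
        simp only
        rw [if_pos hv]
      · intro v hv
        rw [Set.Finite.coe_toFinset]
        have h3 : gg j v ≠ 0 := left_ne_zero_of_mul hv
        rw [hgg] at h3
        by_contra hc
        exact h3 (if_neg hc)
    rw [h2]
    exact mul_le_mul_of_nonneg_left h1 hθ
  have hNs := supp_smul (q : ℝ) (supp_zeros (K := M) (N : M))
  have hsJ : (Function.support fun v => ∑ j ∈ J, gg j v).Finite :=
    supp_sum J gg fun j _ => hgs j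
  have h1 : sm (gw x b r) ≤ sm (fun v => (w3 x v + ∑ j ∈ J, gg j v) +
      q * max 0 (ord v (N : M) : ℝ)) := by
    refine sm_mono (gw_supp hb) (supp_add (supp_add (supp_w3 x) hsJ) hNs) fun v => ?_
    have hw := w3_nonneg x v
    have hg0 : ∀ j, 0 ≤ gg j v := by
      intro j
      rw [hgg]
      simp only
      split_ifs
      · exact hθ
      · exact le_rfl
    have hg1 : 0 ≤ ∑ j ∈ J, gg j v := Finset.sum_nonneg fun j _ => hg0 j
    have hq0 : (0 : ℝ) ≤ q := Nat.cast_nonneg _
    have hm0 : 0 ≤ (q : ℝ) * max 0 (ord v (N : M) : ℝ) := mul_nonneg hq0 (le_max_left _ _)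
    by_cases h3 : w3 x v = 0
    · rw [gw_eq h3]
      by_cases h4 : ord v (N : M) = 0
      · have h5 : ∑ j, om (r j) (ord v (b j)) = ∑ j ∈ J, om (r j) (ord v (b j)) := by
          refine (Finset.sum_subset (Finset.subset_univ J) fun j _ hj => ?_).symm
          rcases hJ' j hj with h6 | h6
          · rw [h6, om_one]
          · rw [h6 v h4 h3, om_nonpos _ le_rfl]
        have h6 : ∑ j ∈ J, om (r j) (ord v (b j)) ≤ ∑ j ∈ J, gg j v := by
          refine Finset.sum_le_sum fun j hj => ?_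
          rw [hJ j hj, hgg]
          refine (om_le hm _).trans ?_
          simp only
          by_cases h7 : 0 < ord v (b j)
          · rw [if_pos h7, if_pos ⟨h4, h3, h7⟩]
          · rw [if_neg h7, if_neg fun h => h7 h.2.2]
        rw [h5]
        linarith
      · have h5 : (1 : ℝ) ≤ max 0 (ord v (N : M) : ℝ) := by
          have h6 := nat_nonneg v N
          have h7 : 1 ≤ ord v (N : M) := by omega
          exact le_max_of_le_right (by exact_mod_cast h7)
        have h6 : ∑ j, om (r j) (ord v (b j)) ≤ ∑ _j : Fin q, (1 : ℝ) :=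
          Finset.sum_le_sum fun j _ => om_le_one _ _
        rw [Finset.sum_const, Finset.card_univ, Fintype.card_fin, nsmul_eq_mul, mul_one] at h6
        have h7 : (q : ℝ) ≤ q * max 0 (ord v (N : M) : ℝ) := by nlinarith
        linarith
    · rw [gw_one h3]
      have := w3_ge h3
      linarith
  rw [sm_add (supp_add (supp_w3 x) hsJ) hNs, sm_add (supp_w3 x) hsJ, sm_smul,
    sm_sum J gg fun j _ => hgs j] at h1
  have h2 : ∑ j ∈ J, sm (gg j) ≤ J.card * ((1 - 1 / (m : ℝ)) * A) := by
    have := Finset.sum_le_sum hgsum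
    rwa [Finset.sum_const, nsmul_eq_mul] at this
  have h3 := mul_le_mul_of_nonneg_left ((zeros_le (K := M) (N : M)).trans (height_nat hN))
    (Nat.cast_nonneg (α := ℝ) q)
  linarith

/-- the final computation -/
theorem final_real (n m S Q k s u p q X C C1 C2 C3 ca lN h hb hQ DK DM WM GM DE DL T c θ : ℝ)
    (hn : 0 < n) (hk : 1 ≤ k) (hs : 0 < s) (hu : 0 < u)
    (hq : 0 < q) (hpq : p * q = s * u) (hm : 0 < m) (hc : 0 < c)
    (hθ : c / m = 1 / n + S * (1 - 1 / m) + θ) (hθ0 : 0 < θ)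
    (hC2 : C2 = 2 * C + S * ((1 - 1 / m) * C3) + Q * lN + ca)
    (hX : C2 + |T| + c / m * C1 < n * θ * (X - C))
    (h1 : q * DL ≤ DE) (h2 : DE ≤ u * (DM + GM + k * s * ca))
    (h3 : GM ≤ WM + S * ((1 - 1 / m) * (h + k * s * C3)) + Q * (k * s * lN))
    (h4 : DM + WM ≤ s * (DK + k * (X + C))) (h5 : n * (k * s * (X - C)) ≤ h)
    (h6 : h ≤ hb + k * s * C1) (h7 : m * (q * hQ) = u * hb) :
    DL + p * (T - DK) < c * hQ := by
  have hks : 0 < k * s := mul_pos (by linarith) hs
  have a1 : k * s * (X - C) ≤ h / n := by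
    rw [le_div_iff₀ hn]
    linarith
  have a2 : DM + GM + k * s * ca ≤ s * DK + h / n + S * (1 - 1 / m) * h + k * s * C2 := by
    rw [hC2]
    linarith
  have a3 : q * DL ≤ u * (s * DK + h / n + S * (1 - 1 / m) * h + k * s * C2) :=
    h1.trans (h2.trans (mul_le_mul_of_nonneg_left a2 hu.le))
  have a4 : q * (p * T) ≤ u * (k * s * |T|) := by
    have e1 : q * (p * T) = u * s * T := by linear_combination T * hpq
    have e2 : u * s * T ≤ u * s * |T| :=
      mul_le_mul_of_nonneg_left (le_abs_self T) (mul_pos hu hs).le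
    have e3 : 1 * (u * s * |T|) ≤ k * (u * s * |T|) :=
      mul_le_mul_of_nonneg_right hk (mul_nonneg (mul_pos hu hs).le (abs_nonneg T))
    linarith
  have a5 : q * (p * DK) = u * (s * DK) := by linear_combination DK * hpq
  have a6 : q * (c * hQ) = c / m * (u * hb) := by
    rw [← h7]
    field_simp
  have hcm : 0 < c / m := div_pos hc hm
  have a7 : c / m * (u * (h - k * s * C1)) ≤ c / m * (u * hb) :=
    mul_le_mul_of_nonneg_left (mul_le_mul_of_nonneg_left (by linarith) hu.le) hcm.le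
  have a8 : k * s * (C2 + |T| + c / m * C1) < θ * h := by
    have b1 := mul_lt_mul_of_pos_left hX hks
    have b2 := mul_le_mul_of_nonneg_left h5 hθ0.le
    linarith
  have a9 : c / m * (u * (h - k * s * C1)) = u * (h / n + S * (1 - 1 / m) * h) +
      u * (θ * h - k * s * (c / m * C1)) := by
    rw [hθ]
    ring
  have a10 : q * (DL + p * (T - DK)) < q * (c * hQ) := by
    have b1 := mul_lt_mul_of_pos_left a8 hu
    rw [a6]
    refine lt_of_lt_of_le ?_ a7
    rw [a9]
    linarith
  exact lt_of_mul_lt_mul_left a10 hq.le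

end Pool.Agent.H431.KU
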