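import Pool.Agent.H431.KU.Prime
import Pool.Agent.H431.LF.Line

/-!
# Adjoining roots of arbitrary order of finitely many elements
-/

set_option autoImplicit false

namespace Pool.Agent.H431.KU

open NumberField IsDedekindDomain Height Pool.Agent.Q290.NF IntermediateField
open Pool.Agent.H431.OC Pool.Agent.H431.MT Pool.Agent.H431.PN

section om

theorem om_p_mul {p r : ℕ} (hp : 0 < p) (hr : r ≠ 0) (n : ℤ) : om (p * r) (p * n) = om r n := by
  have hp' : (0 : ℤ) < p := by exact_mod_cast hp
  by_cases h : 0 < n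
  · rw [om_pos _ h, om_pos _ (mul_pos hp' h)]
    have e : Int.gcd ((p * r : ℕ) : ℤ) (p * n) = p * Int.gcd r n := by
      push_cast
      rw [Int.gcd_mul_left]
      rfl
    rw [e]
    have hr' : (r : ℝ) ≠ 0 := by exact_mod_cast hr
    have hp2 : (p : ℝ) ≠ 0 := by exact_mod_cast hp.ne'
    push_cast
    congr 1
    field_simp
  · rw [om_nonpos _ (not_lt.1 h), om_nonpos _ (mul_nonpos_of_nonneg_of_nonpos hp'.le (not_lt.1 h))]

theorem om_p_not {p r : ℕ} (hp : p.Prime) (hr : r ≠ 0) {n : ℤ} (h0 : 0 < n)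
    (h : ¬ (p : ℤ) ∣ n) : (p - 1 : ℝ) + om r n = p * om (p * r) n := by
  rw [om_pos _ h0, om_pos _ h0]
  have e : Int.gcd ((p * r : ℕ) : ℤ) n = Int.gcd r n := by
    have hc : Nat.Coprime p n.natAbs := by
      rw [hp.coprime_iff_not_dvd]
      intro h1
      exact h (Int.natCast_dvd.2 h1)
    have h2 : Int.gcd ((p * r : ℕ) : ℤ) n = Nat.gcd (p * r) n.natAbs := rfl
    have h3 : Int.gcd (r : ℤ) n = Nat.gcd r n.natAbs := rfl
    rw [h2, h3]
    exact Nat.Coprime.gcd_mul_left_cancel r hc
  rw [e]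
  have hr' : (r : ℝ) ≠ 0 := by exact_mod_cast hr
  have hp2 : (p : ℝ) ≠ 0 := by exact_mod_cast hp.ne_zero
  push_cast
  field_simp
  ring

theorem om_one (n : ℤ) : om 1 n = 0 := by
  have := om_self (l := 1) one_ne_zero n
  rwa [Nat.cast_one, one_mul] at this

theorem om_le {m : ℕ} (hm : m ≠ 0) (n : ℤ) : om m n ≤ if 0 < n then 1 - 1 / (m : ℝ) else 0 := by
  split_ifs with h
  · rw [om_pos _ h]
    have h1 : 0 < Int.gcd m n := Int.gcd_pos_of_ne_zero_left _ (by exact_mod_cast hm)
    have h2 : (1 : ℝ) ≤ Int.gcd m n := by exact_mod_cast h1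
    have h3 : 1 / (m : ℝ) ≤ Int.gcd m n / m := div_le_div_of_nonneg_right h2 (Nat.cast_nonneg _)
    linarith
  · rw [om_nonpos _ (not_lt.1 h)]

end om

/-- a root in an extension, with an embedding -/
theorem root_emb (M : Type) [Field M] [NumberField M] (σ : M →+* ℂ) {p : ℕ} (hp : p ≠ 0) (a : M)
    (z : ℂ) (hz : z ^ p = σ a) :
    ∃ (E : Type) (_ : Field E) (_ : NumberField E) (_ : Algebra M E) (x : E) (τ : E →+* ℂ),
      x ^ p = algebraMap M E a ∧ Module.finrank M E ≤ p ∧ M⟮x⟯ = ⊤ ∧
      τ.comp (algebraMap M E) = σ ∧ τ x = z := by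
  let _ : Algebra M ℂ := σ.toAlgebra
  obtain ⟨ix, fx⟩ := finrank_simple (l := p) hp z a hz
  let F := M⟮z⟯
  have hF : Module.Finite M F := adjoin.finiteDimensional ix
  have nF : NumberField F := NumberField.of_module_finite M F
  refine ⟨F, inferInstance, nF, inferInstance, AdjoinSimple.gen M z, F.val.toRingHom, ?_, fx,
    gen_top ix, ?_, ?_⟩
  · apply (algebraMap F ℂ).injective
    rw [map_pow, AdjoinSimple.algebraMap_gen, hz, ← IsScalarTower.algebraMap_apply]
    rfl
  · ext y
    exact F.val.commutes y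
  · exact AdjoinSimple.algebraMap_gen M z

/-- the weight: `1` at the bad primes of `x`, the orbifold weights of the `b_j` elsewhere -/
noncomputable def gw {M : Type} [Field M] [NumberField M] (x : M) {s : ℕ} (b : Fin s → M)
    (r : Fin s → ℕ) (v : HeightOneSpectrum (𝓞 M)) : ℝ :=
  if w3 x v = 0 then ∑ j, om (r j) (ord v (b j)) else 1

/-- the elements `b_j` are integral at the good primes -/
def Fam (N : ℕ) {M : Type} [Field M] [NumberField M] (x : M) {s : ℕ} (b : Fin s → M) : Prop :=
  ∀ j (v : HeightOneSpectrum (𝓞 M)), ord v (N : M) = 0 → w3 x v = 0 → 0 ≤ ord v (b j)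

section gw

variable {M : Type} [Field M] [NumberField M] {x : M} {s : ℕ} {b : Fin s → M} {r : Fin s → ℕ}

theorem gw_eq {v : HeightOneSpectrum (𝓞 M)} (h : w3 x v = 0) :
    gw x b r v = ∑ j, om (r j) (ord v (b j)) := if_pos h

theorem gw_one {v : HeightOneSpectrum (𝓞 M)} (h : w3 x v ≠ 0) : gw x b r v = 1 := if_neg h

theorem gw_nonneg (hr : ∀ j, r j ≠ 0) (v : HeightOneSpectrum (𝓞 M)) : 0 ≤ gw x b r v := by
  unfold gw
  split_ifs
  · exact Finset.sum_nonneg fun j _ => om_nonneg (hr j) _
  · exact zero_le_one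

theorem gw_le (v : HeightOneSpectrum (𝓞 M)) : gw x b r v ≤ s + 1 := by
  unfold gw
  have hs : (0 : ℝ) ≤ s := Nat.cast_nonneg _
  split_ifs
  · have h1 : ∑ j, om (r j) (ord v (b j)) ≤ ∑ _j : Fin s, (1 : ℝ) :=
      Finset.sum_le_sum fun j _ => om_le_one _ _
    rw [Finset.sum_const, Finset.card_univ, Fintype.card_fin, nsmul_eq_mul, mul_one] at h1
    linarith
  · linarith

theorem gw_supp (hb : ∀ j, b j ≠ 0) : (Function.support (gw x b r)).Finite := by
  refine ((supp_w3 x).union (Set.finite_iUnion fun j => fin_ord (hb j))).subset fun v hv => ?_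
  by_cases h : w3 x v = 0
  · right
    rw [Function.mem_support, gw_eq h] at hv
    obtain ⟨j, -, hj⟩ := Finset.exists_ne_zero_of_sum_ne_zero hv
    refine Set.mem_iUnion.2 ⟨j, fun h0 => hj ?_⟩
    rw [h0, om_nonpos _ le_rfl]
  · exact Or.inl h

end gw

/-- **one root of prime order** -/
theorem step {p : ℕ} (hp : p.Prime) {N : ℕ} (hN : N ≠ 0) (hpN : p ∣ N) {s : ℕ} (r : Fin s → ℕ)
    (hr : ∀ j, r j ≠ 0) (j : Fin s) (r' : ℕ) (hrj : r j = p * r') (M : Type) [Field M]
    [NumberField M] (σ : M →+* ℂ) (x : M) (b : Fin s → M) (hb : ∀ i, b i ≠ 0)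
    (hF : Fam N x b) (z : ℂ) (hz : z ^ p = σ (b j)) :
    ∃ (E : Type) (_ : Field E) (_ : NumberField E) (_ : Algebra M E) (τ : E →+* ℂ) (y : E),
      τ.comp (algebraMap M E) = σ ∧ y ^ p = algebraMap M E (b j) ∧ τ y = z ∧
      Module.finrank M E ≤ p ∧
      Fam N (algebraMap M E x) (Function.update (fun i => algebraMap M E (b i)) j y) ∧
      DD E + sm (gw (algebraMap M E x) (Function.update (fun i => algebraMap M E (b i)) j y)
        (Function.update r j r')) ≤ Module.finrank M E * (DD M + sm (gw x b r) +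
          Module.finrank ℚ M * ((s + 1 + 1) * Real.log N + Real.log (p.factorial : ℕ))) := by
  classical
  obtain ⟨E, g1, g2, g3, y, τ, hy, hE, hadj, hτ, hτy⟩ := root_emb M σ hp.ne_zero (b j) z hz
  have hr' : r' ≠ 0 := by
    rintro rfl
    exact hr j (by rw [hrj, mul_zero])
  have hpZ : (0 : ℤ) < p := by exact_mod_cast hp.pos
  have hy0 : y ≠ 0 := by
    rintro rfl
    rw [zero_pow hp.ne_zero] at hy
    exact hb j ((map_eq_zero _).1 hy.symm)
  obtain ⟨b', hb'⟩ : ∃ b', b' = Function.update (fun i => algebraMap M E (b i)) j y := ⟨_, rfl⟩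
  obtain ⟨r2, hr2⟩ : ∃ r2, r2 = Function.update r j r' := ⟨_, rfl⟩
  have hbj : b' j = y := by rw [hb', Function.update_self]
  have hbi : ∀ i, i ≠ j → b' i = algebraMap M E (b i) := fun i hi => by
    rw [hb', Function.update_of_ne hi]
  have hrj2 : r2 j = r' := by rw [hr2, Function.update_self]
  have hri : ∀ i, i ≠ j → r2 i = r i := fun i hi => by rw [hr2, Function.update_of_ne hi]
  have hb0 : ∀ i, b' i ≠ 0 := by
    intro i
    by_cases hi : i = j
    · rw [hi, hbj]
      exact hy0
    · rw [hbi i hi]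
      exact (map_ne_zero _).2 (hb i)
  have hr0 : ∀ i, r2 i ≠ 0 := by
    intro i
    by_cases hi : i = j
    · rw [hi, hrj2]
      exact hr'
    · rw [hri i hi]
      exact hr i
  refine ⟨E, g1, g2, g3, τ, y, hτ, hy, hτy, hE, ?_, ?_⟩
  · rw [← hb']
    intro i w hwN hw3
    obtain ⟨v, e, he, hvw⟩ := Pool.Agent.H431.LF.below (M := M) w
    have he' : (0 : ℤ) < e := by exact_mod_cast Nat.pos_of_ne_zero he
    have hvN : ord v (N : M) = 0 := by
      have := hvw N
      rw [map_natCast, hwN] at this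
      exact (mul_eq_zero.1 this.symm).resolve_left he'.ne'
    rw [w3_ext v w he hvw] at hw3
    by_cases hi : i = j
    · rw [hi, hbj]
      have h1 := hvw (b j)
      rw [← hy, ord_pow] at h1
      have h2 := hF j v hvN hw3
      have h3 : 0 ≤ (p : ℤ) * ord w y := by
        rw [h1]
        exact mul_nonneg he'.le h2
      exact nonneg_of_mul_nonneg_right h3 hpZ
    · rw [hbi i hi, hvw]
      exact mul_nonneg he'.le (hF i v hvN hw3)
  · rw [← hb', ← hr2]
    refine prime_ineq hp hN hpN y (b j) (hb j) hy hadj (B := s + 1) (by positivity) _ _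
      (gw_supp hb0) (gw_supp hb) (gw_nonneg hr0) gw_le (gw_nonneg hr) ?_
    intro v w e he hvN hvw
    have he1 : (1 : ℝ) ≤ e := by exact_mod_cast Nat.one_le_iff_ne_zero.2 he
    have hp1 : (1 : ℝ) < p := by exact_mod_cast hp.one_lt
    have hw3 : w3 (algebraMap M E x) w = w3 x v := w3_ext v w he hvw x
    by_cases h3 : w3 x v = 0
    · rw [gw_eq h3, gw_eq (hw3.trans h3)]
      have hyw : (p : ℤ) * ord w y = e * ord v (b j) := by
        rw [← hvw, ← hy, ord_pow]
      have hi1 : ∀ i, i ≠ j → om (r2 i) (ord w (b' i)) ≤ om (r i) (ord v (b i)) := by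
        intro i hi
        rw [hri i hi, hbi i hi, hvw]
        exact om_mul_le (hr i) he _
      constructor
      · intro hd
        obtain ⟨n', hn'⟩ := hd
        have h5 : ord w y = e * n' := by
          rw [hn'] at hyw
          have h6 : (p : ℤ) * ord w y = p * (e * n') := by rw [hyw]; ring
          exact mul_left_cancel₀ hpZ.ne' h6
        have h7 : ∑ i, om (r2 i) (ord w (b' i)) ≤ ∑ i, om (r i) (ord v (b i)) := by
          refine Finset.sum_le_sum fun i _ => ?_
          by_cases hi : i = j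
          · rw [hi, hrj2, hbj, h5, hn', hrj, om_p_mul hp.pos hr']
            exact om_mul_le hr' he _
          · exact hi1 i hi
        have h8 : 0 ≤ ∑ i, om (r i) (ord v (b i)) :=
          Finset.sum_nonneg fun i _ => om_nonneg (hr i) _
        nlinarith
      · intro hd hep
        have h5 : ord w y = ord v (b j) := by
          rw [hep] at hyw
          exact mul_left_cancel₀ hpZ.ne' hyw
        have h6 : 0 < ord v (b j) := by
          have h7 := hF j v hvN h3
          rcases h7.lt_or_eq with h8 | h8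
          · exact h8
          · exact absurd (h8 ▸ dvd_zero _) hd
        have h9 : ∀ i, (if i = j then (p - 1 : ℝ) else 0) + om (r2 i) (ord w (b' i)) ≤
            p * om (r i) (ord v (b i)) := by
          intro i
          split_ifs with hi
          · rw [hi, hrj2, hbj, h5, hrj]
            exact (om_p_not hp hr' h6 hd).le
          · have h10 := hi1 i hi
            have h11 := om_nonneg (hr i) (ord v (b i))
            nlinarith
        have h12 := Finset.sum_le_sum fun i (_ : i ∈ Finset.univ) => h9 i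
        rw [Finset.sum_add_distrib, Finset.sum_ite_eq' , if_pos (Finset.mem_univ j),
          ← Finset.mul_sum] at h12
        exact h12
    · rw [gw_one h3, gw_one (by rw [hw3]; exact h3)]
      exact ⟨fun _ => by linarith, fun _ _ => by linarith⟩

end Pool.Agent.H431.KU
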